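import Pool.Agent.T9h34.Q.Spec

set_option autoImplicit false

/-!
# Piece (H1): one random star is nearly invisible in the uniformly random graph
-/

namespace Pool.Agent.T9h48.QC

open Finset
open Pool.Agent.PC34 (prob)
open Pool.Agent.T9h34
open Pool.Agent.T9h34.Q (StStar)

/-- The fibres of `G ↦ G ∪ K`. -/
theorem card_fibre {E : Type} [Fintype E] [DecidableEq E] (K H : Finset E) :
    (univ.filter (fun G : Finset E => G ∪ K = H)).card = if K ⊆ H then 2 ^ K.card else 0 := by
  classical
  split_ifs with hK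
  · rw [← Finset.card_powerset]
    refine Finset.card_nbij' (fun G => G ∩ K) (fun G => (H \ K) ∪ G) ?_ ?_ ?_ ?_
    · intro G _
      simp only [coe_powerset, Set.mem_preimage, Set.mem_powerset_iff, coe_subset]
      exact inter_subset_right
    · intro G hG
      simp only [coe_powerset, Set.mem_preimage, Set.mem_powerset_iff, coe_subset] at hG
      simp only [coe_filter, mem_univ, true_and, Set.mem_ofPred_eq]
      ext x
      have := @hG x
      have := @hK x
      simp only [mem_union, mem_sdiff]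
      tauto
    · intro G hG
      simp only [coe_filter, mem_univ, true_and, Set.mem_ofPred_eq] at hG
      subst hG
      ext x
      simp only [mem_union, mem_sdiff, mem_inter]
      tauto
    · intro G hG
      simp only [coe_powerset, Set.mem_preimage, Set.mem_powerset_iff, coe_subset] at hG
      ext x
      have := @hG x
      simp only [mem_union, mem_sdiff, mem_inter]
      tauto
  · rw [Finset.card_eq_zero, Finset.filter_eq_empty_iff]
    intro G _ h
    exact hK (h ▸ subset_union_right)

theorem sum_union {E : Type} [Fintype E] [DecidableEq E] (K : Finset E) (g : Finset E → ℝ) :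
    ∑ G : Finset E, g (G ∪ K) = ∑ H : Finset E, if K ⊆ H then 2 ^ K.card * g H else 0 := by
  classical
  rw [← Finset.sum_fiberwise (s := (univ : Finset (Finset E))) (g := fun G => G ∪ K)]
  refine Finset.sum_congr rfl fun H _ => ?_
  rw [Finset.sum_congr rfl (g := fun _ => g H)]
  · rw [Finset.sum_const, card_fibre]
    split_ifs <;> simp
  · intro G hG
    rw [(mem_filter.1 hG).2]

theorem sum_superset {E : Type} [Fintype E] [DecidableEq E] (L : Finset E) :
    (∑ H : Finset E, if L ⊆ H then (2 : ℝ) ^ L.card else 0) = Fintype.card (Finset E) := by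
  have := sum_union L (fun _ => 1)
  simp only [sum_const, card_univ, nsmul_eq_mul, mul_one] at this
  exact this.symm

section

variable {V ρ : Type} [Fintype V] [DecidableEq V] [Fintype ρ] [DecidableEq ρ]

/-- The density of the graph `G ∪ Q.star p`, relative to the uniform one. -/
noncomputable def dens (ρ : Type) [Fintype ρ] [DecidableEq ρ] (H : Finset (Sym2 V)) : ℝ :=
  (∑ p : Option ρ → V, if Q.star p ⊆ H then (2 : ℝ) ^ (Q.star p).card else 0) /
    Fintype.card (Option ρ → V)

theorem prob_star (Θ : Finset (Sym2 V) → Prop) [DecidablePred Θ] :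
    prob (fun x : Finset (Sym2 V) × (Option ρ → V) => Θ (x.1 ∪ Q.star x.2)) =
      (∑ H : Finset (Sym2 V), dens ρ H * if Θ H then 1 else 0) /
        Fintype.card (Finset (Sym2 V)) := by
  classical
  unfold prob
  rw [Fintype.card_prod, Nat.cast_mul, div_mul_eq_div_div_swap]
  congr 1
  rw [card_filter, Nat.cast_sum, Fintype.sum_prod_type_right]
  simp only [dens, div_mul_eq_mul_div, sum_mul]
  rw [← sum_div, sum_comm (s := (univ : Finset (Finset (Sym2 V))))]
  congr 1
  refine sum_congr rfl fun p _ => ?_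
  have := sum_union (Q.star p) (fun H => if Θ H then (1 : ℝ) else 0)
  push_cast
  simp only [ite_mul, zero_mul]
  convert this using 2

theorem sum_dens [Nonempty V] :
    ∑ H : Finset (Sym2 V), dens ρ H = Fintype.card (Finset (Sym2 V)) := by
  simp only [dens]
  rw [← sum_div, sum_comm]
  simp only [sum_superset, sum_const, card_univ, nsmul_eq_mul]
  have : (Fintype.card (Option ρ → V) : ℝ) ≠ 0 := by
    exact_mod_cast Fintype.card_ne_zero
  field_simp

theorem sum_dens_sq :
    ∑ H : Finset (Sym2 V), dens ρ H ^ 2 = Fintype.card (Finset (Sym2 V)) *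
      (∑ p : Option ρ → V, ∑ p' : Option ρ → V, (2 : ℝ) ^ (Q.star p ∩ Q.star p').card) /
        (Fintype.card (Option ρ → V)) ^ 2 := by
  simp only [dens, div_pow]
  rw [← sum_div]
  congr 1
  simp only [sq, sum_mul_sum]
  rw [sum_comm, mul_sum]
  refine sum_congr rfl fun p1 _ => ?_
  rw [sum_comm, mul_sum]
  refine sum_congr rfl fun p2 _ => ?_
  rw [← sum_superset (Q.star p1 ∪ Q.star p2), sum_mul]
  refine sum_congr rfl fun H _ => ?_
  have hc : (2 : ℝ) ^ (Q.star p1).card * 2 ^ (Q.star p2).card =
      2 ^ (Q.star p1 ∪ Q.star p2).card * 2 ^ (Q.star p1 ∩ Q.star p2).card := by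
    rw [← pow_add, ← pow_add, card_union_add_card_inter]
  by_cases h1 : Q.star p1 ⊆ H <;> by_cases h2 : Q.star p2 ⊆ H <;>
    simp [h1, h2, union_subset_iff, hc]

/-- The bound for the common edges of two stars. -/
theorem two_pow_inter (y y' : V) (q q' : ρ → V) (p p' : Option ρ → V)
    (hp : p = fun o => o.elim y q) (hp' : p' = fun o => o.elim y' q') :
    (2 : ℝ) ^ (Q.star p ∩ Q.star p').card ≤
      1 + (if y = y' then (∏ r, if q' r ∈ univ.image q then (2 : ℝ) else 1) - 1 else 0) +
        (if y' ∈ univ.image q then 1 else 0) * (if y ∈ univ.image q' then 1 else 0) := by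
  have hn : (0 : ℝ) ≤ (if y' ∈ univ.image q then 1 else 0) * (if y ∈ univ.image q' then 1 else 0) := by
    split_ifs <;> norm_num
  by_cases h : y = y'
  · rw [if_pos h]
    subst h
    have h1 : Q.star p ∩ Q.star p' ⊆ (univ.filter (fun r => q' r ∈ univ.image q)).image
        (fun r => s(y, q' r)) := by
      intro e he
      rw [mem_inter] at he
      obtain ⟨h1, h2⟩ := he
      simp only [Q.star, mem_image, mem_univ, true_and] at h1 h2
      obtain ⟨r1, rfl⟩ := h1
      obtain ⟨r2, h2⟩ := h2
      simp only [hp, hp', Option.elim] at h2 ⊢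
      rw [Sym2.congr_right] at h2
      simp only [mem_image, mem_filter, mem_univ, true_and]
      exact ⟨r2, ⟨r1, h2.symm⟩, by rw [h2]⟩
    have h2 : (Q.star p ∩ Q.star p').card ≤ (univ.filter (fun r => q' r ∈ univ.image q)).card :=
      (card_le_card h1).trans card_image_le
    have h3 : (∏ r, if q' r ∈ univ.image q then (2 : ℝ) else 1) =
        2 ^ (univ.filter (fun r => q' r ∈ univ.image q)).card := by
      rw [prod_ite, prod_const, prod_const_one, mul_one]
    rw [h3]
    have h4 : (2 : ℝ) ^ (Q.star p ∩ Q.star p').card ≤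
        2 ^ (univ.filter (fun r => q' r ∈ univ.image q)).card :=
      pow_le_pow_right₀ (by norm_num) h2
    linarith
  · rw [if_neg h]
    by_cases h0 : Q.star p ∩ Q.star p' = ∅
    · rw [h0]
      simp only [card_empty, pow_zero]
      linarith
    · obtain ⟨e, he⟩ := nonempty_iff_ne_empty.2 h0
      have key : ∀ e ∈ Q.star p ∩ Q.star p', e = s(y, y') ∧ y' ∈ univ.image q ∧ y ∈ univ.image q' := by
        intro e he
        rw [mem_inter] at he
        obtain ⟨h1, h2⟩ := he
        simp only [Q.star, mem_image, mem_univ, true_and] at h1 h2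
        obtain ⟨r1, rfl⟩ := h1
        obtain ⟨r2, h2⟩ := h2
        simp only [hp, hp', Option.elim] at h2 ⊢
        rcases Sym2.eq_iff.1 h2 with ⟨h3, _⟩ | ⟨h3, h4⟩
        · exact absurd h3.symm h
        · refine ⟨by rw [h3], mem_image.2 ⟨r1, mem_univ _, h3.symm⟩,
            mem_image.2 ⟨r2, mem_univ _, h4⟩⟩
      have hc : (Q.star p ∩ Q.star p').card ≤ 1 := by
        rw [card_le_one]
        intro a ha b hb
        rw [(key a ha).1, (key b hb).1]
      have h5 := key e he
      have h6 : (2 : ℝ) ^ (Q.star p ∩ Q.star p').card ≤ 2 ^ 1 := pow_le_pow_right₀ (by norm_num) hc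
      rw [if_pos h5.2.1, if_pos h5.2.2]
      linarith

theorem pow_bound (n R : ℕ) (hn : 0 < n) (h : R ^ 2 ≤ n) :
    (n : ℝ) * (((n : ℝ) + R) ^ R - (n : ℝ) ^ R) ≤ 2 * R ^ 2 * (n : ℝ) ^ R := by
  have hn' : (0 : ℝ) < n := by exact_mod_cast hn
  set x : ℝ := (R : ℝ) ^ 2 / n with hx
  have hx1 : x ≤ 1 := by
    rw [hx, div_le_one hn']
    exact_mod_cast h
  have hx0 : 0 ≤ x := by positivity
  have h1 : (1 + (R : ℝ) / n) ^ R ≤ 1 + 2 * x := by
    have h2 : (1 + (R : ℝ) / n) ^ R ≤ Real.exp x := by
      have := Real.add_one_le_exp ((R : ℝ) / n)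
      calc (1 + (R : ℝ) / n) ^ R ≤ (Real.exp ((R : ℝ) / n)) ^ R :=
            pow_le_pow_left₀ (by positivity) (by linarith) _
        _ = Real.exp x := by
            rw [← Real.exp_nat_mul, hx]
            congr 1
            ring
    have h3 := Real.abs_exp_sub_one_sub_id_le (x := x) (by rw [abs_of_nonneg hx0]; exact hx1)
    have h4 := (abs_le.1 h3).2
    nlinarith
  have h5 : ((n : ℝ) + R) ^ R = (n : ℝ) ^ R * (1 + (R : ℝ) / n) ^ R := by
    rw [← mul_pow]
    congr 1
    field_simp
  have h6 : (n : ℝ) * x = R ^ 2 := by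
    rw [hx]; field_simp
  rw [h5]
  have h7 : (0 : ℝ) < (n : ℝ) ^ R := by positivity
  calc (n : ℝ) * ((n : ℝ) ^ R * (1 + (R : ℝ) / n) ^ R - (n : ℝ) ^ R)
      = (n : ℝ) * (n : ℝ) ^ R * ((1 + (R : ℝ) / n) ^ R - 1) := by ring
    _ ≤ (n : ℝ) * (n : ℝ) ^ R * (2 * x) := by
        apply mul_le_mul_of_nonneg_left (by linarith) (by positivity)
    _ = 2 * (n * x) * (n : ℝ) ^ R := by ring
    _ = _ := by rw [h6]

theorem sum_prod_le (q : ρ → V) :
    ∑ q' : ρ → V, (∏ r, if q' r ∈ univ.image q then (2 : ℝ) else 1) ≤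
      ((Fintype.card V : ℝ) + Fintype.card ρ) ^ (Fintype.card ρ) := by
  have h1 := Finset.prod_univ_sum (fun _ : ρ => (univ : Finset V))
    (fun _ v => if v ∈ univ.image q then (2 : ℝ) else 1)
  rw [Fintype.piFinset_univ] at h1
  rw [← h1, prod_const, card_univ]
  apply pow_le_pow_left₀
  · apply sum_nonneg
    intro v _
    split_ifs <;> norm_num
  · have h2 : ∀ v : V, (if v ∈ univ.image q then (2 : ℝ) else 1) =
        1 + if v ∈ univ.image q then (1 : ℝ) else 0 := by
      intro v
      split_ifs <;> norm_num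
    simp only [h2]
    rw [sum_add_distrib, sum_const, card_univ, nsmul_eq_mul, mul_one, sum_ite_mem, univ_inter,
      sum_const, nsmul_eq_mul, mul_one]
    have : ((univ.image q).card : ℝ) ≤ Fintype.card ρ := by
      exact_mod_cast card_image_le.trans (le_of_eq card_univ)
    linarith

theorem sum_mem_le (q : ρ → V) :
    ∑ v : V, (if v ∈ univ.image q then (1 : ℝ) else 0) ≤ Fintype.card ρ := by
  rw [sum_ite_mem, univ_inter, sum_const, nsmul_eq_mul, mul_one]
  exact_mod_cast card_image_le.trans (le_of_eq card_univ)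

theorem second_moment [Nonempty V] (h : (Fintype.card ρ) ^ 2 ≤ Fintype.card V) :
    (∑ p : Option ρ → V, ∑ p' : Option ρ → V, (2 : ℝ) ^ (Q.star p ∩ Q.star p').card) /
        (Fintype.card (Option ρ → V)) ^ 2 ≤
      1 + 3 * (Fintype.card ρ : ℝ) ^ 2 / (Fintype.card V : ℝ) ^ 2 := by
  set n := Fintype.card V with hn
  set R := Fintype.card ρ with hR
  have hn0 : 0 < n := Fintype.card_pos
  have hn' : (0 : ℝ) < n := by exact_mod_cast hn0
  have hcard : (Fintype.card (Option ρ → V) : ℝ) = n ^ R * n := by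
    rw [Fintype.card_fun, Fintype.card_option]
    push_cast
    rw [pow_succ]
  have e : (Option ρ → V) ≃ V × (ρ → V) := Equiv.piOptionEquivProd (β := fun _ => V)
  have hsum : ∀ F : (Option ρ → V) → ℝ, ∑ p, F p = ∑ y : V, ∑ q : ρ → V,
      F (fun o => o.elim y q) := by
    intro F
    rw [← Fintype.sum_prod_type']
    refine Fintype.sum_equiv (Equiv.piOptionEquivProd (β := fun _ => V)) _ _ ?_
    intro p
    congr 1
    funext o
    cases o <;> rfl
  have main : (∑ p : Option ρ → V, ∑ p' : Option ρ → V, (2 : ℝ) ^ (Q.star p ∩ Q.star p').card) ≤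
      (n ^ R * n) ^ 2 + 3 * R ^ 2 * (n ^ R) ^ 2 := by
    rw [hsum]
    simp only [hsum (fun p' => (2 : ℝ) ^ (Q.star _ ∩ Q.star p').card)]
    calc ∑ y : V, ∑ q : ρ → V, ∑ y' : V, ∑ q' : ρ → V,
          (2 : ℝ) ^ (Q.star (fun o => o.elim y q) ∩ Q.star (fun o => o.elim y' q')).card
        ≤ ∑ y : V, ∑ q : ρ → V, ∑ y' : V, ∑ q' : ρ → V,
          (1 + (if y = y' then (∏ r, if q' r ∈ univ.image q then (2 : ℝ) else 1) - 1 else 0) +
        (if y' ∈ univ.image q then 1 else 0) * (if y ∈ univ.image q' then 1 else 0)) := by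
          gcongr with y _ q _ y' _ q' _
          exact two_pow_inter y y' q q' _ _ rfl rfl
      _ = (n ^ R * n) ^ 2 + n * ∑ q : ρ → V, ((∑ q' : ρ → V,
            (∏ r, if q' r ∈ univ.image q then (2 : ℝ) else 1)) - n ^ R) +
            (∑ q : ρ → V, ∑ y' : V, (if y' ∈ univ.image q then (1 : ℝ) else 0)) *
            (∑ q' : ρ → V, ∑ y : V, (if y ∈ univ.image q' then (1 : ℝ) else 0)) := by
          simp only [sum_add_distrib]
          congr 1
          · congr 1
            · simp only [sum_const, card_univ, nsmul_eq_mul, mul_one, Fintype.card_fun]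
              push_cast
              ring
            · have : ∀ (y : V) (q : ρ → V), ∑ y' : V, ∑ q' : ρ → V,
                  (if y = y' then (∏ r, if q' r ∈ univ.image q then (2 : ℝ) else 1) - 1 else 0) =
                  (∑ q' : ρ → V, (∏ r, if q' r ∈ univ.image q then (2 : ℝ) else 1)) - n ^ R := by
                intro y q
                rw [sum_comm]
                simp only [sum_ite_eq, mem_univ, if_true]
                rw [sum_sub_distrib]
                simp only [sum_const, card_univ, nsmul_eq_mul, mul_one, Fintype.card_fun]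
                push_cast
                rfl
              simp only [this]
              rw [sum_const, card_univ, nsmul_eq_mul]
          · rw [sum_comm, sum_mul]
            refine sum_congr rfl fun q _ => ?_
            rw [sum_comm, sum_mul]
            refine sum_congr rfl fun y' _ => ?_
            rw [sum_comm, mul_sum]
            refine sum_congr rfl fun q' _ => ?_
            rw [mul_sum]
      _ ≤ (n ^ R * n) ^ 2 + 2 * R ^ 2 * (n ^ R) ^ 2 + R ^ 2 * (n ^ R) ^ 2 := by
          have h1 : n * ∑ q : ρ → V, ((∑ q' : ρ → V,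
            (∏ r, if q' r ∈ univ.image q then (2 : ℝ) else 1)) - (n : ℝ) ^ R) ≤
              2 * R ^ 2 * ((n : ℝ) ^ R) ^ 2 := by
            calc n * ∑ q : ρ → V, ((∑ q' : ρ → V,
                  (∏ r, if q' r ∈ univ.image q then (2 : ℝ) else 1)) - (n : ℝ) ^ R)
                ≤ n * ∑ q : ρ → V, (((n : ℝ) + R) ^ R - (n : ℝ) ^ R) := by
                  gcongr with q _
                  exact sum_prod_le q
              _ = (n : ℝ) ^ R * (n * (((n : ℝ) + R) ^ R - (n : ℝ) ^ R)) := by
                  rw [sum_const, card_univ, nsmul_eq_mul, Fintype.card_fun]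
                  push_cast
                  ring
              _ ≤ (n : ℝ) ^ R * (2 * R ^ 2 * (n : ℝ) ^ R) := by
                  apply mul_le_mul_of_nonneg_left (pow_bound n R hn0 h) (by positivity)
              _ = _ := by ring
          have h2 : ∑ q : ρ → V, ∑ y' : V, (if y' ∈ univ.image q then (1 : ℝ) else 0) ≤
              R * (n : ℝ) ^ R := by
            calc ∑ q : ρ → V, ∑ y' : V, (if y' ∈ univ.image q then (1 : ℝ) else 0)
                ≤ ∑ q : ρ → V, (R : ℝ) := sum_le_sum fun q _ => sum_mem_le q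
              _ = _ := by
                rw [sum_const, card_univ, nsmul_eq_mul, Fintype.card_fun]
                push_cast
                ring
          have h3 : 0 ≤ ∑ q : ρ → V, ∑ y' : V, (if y' ∈ univ.image q then (1 : ℝ) else 0) := by
            apply sum_nonneg; intro q _; apply sum_nonneg; intro v _; split_ifs <;> norm_num
          have h4 := mul_le_mul h2 h2 h3 (by positivity)
          have h5 : (R * (n : ℝ) ^ R) * (R * (n : ℝ) ^ R) = R ^ 2 * ((n : ℝ) ^ R) ^ 2 := by ring
          rw [h5] at h4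
          gcongr
      _ = _ := by ring
  rw [hcard]
  rw [div_le_iff₀ (by positivity)]
  have : (1 + 3 * (R : ℝ) ^ 2 / (n : ℝ) ^ 2) * ((n : ℝ) ^ R * n) ^ 2 =
      (n ^ R * n) ^ 2 + 3 * R ^ 2 * (n ^ R) ^ 2 := by
    field_simp
  rw [this]
  exact main

end

/-- Piece (H1). -/
theorem stStar : StStar := by
  intro V ρ _ _ _ _ _ hR Θ
  classical
  set M : ℝ := ((Fintype.card (Finset (Sym2 V)) : ℕ) : ℝ) with hM
  have hM0 : 0 < M := by
    rw [hM]; exact_mod_cast Fintype.card_pos
  set n : ℝ := (Fintype.card V : ℝ) with hn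
  have hn0 : 0 < n := by rw [hn]; exact_mod_cast Fintype.card_pos
  have h1 := prob_star (V := V) (ρ := ρ) Θ
  have h2 : prob Θ = (∑ H : Finset (Sym2 V), if Θ H then (1 : ℝ) else 0) / M := by
    unfold prob
    rw [card_filter, Nat.cast_sum, hM]
    congr 1
    refine sum_congr rfl fun H _ => ?_
    split_ifs <;> simp
  have h3 : prob (fun x : Finset (Sym2 V) × (Option ρ → V) => Θ (x.1 ∪ Q.star x.2)) - prob Θ =
      (∑ H : Finset (Sym2 V), (dens ρ H - 1) * if Θ H then 1 else 0) / M := by
    rw [h1, h2, ← sub_div, ← sum_sub_distrib]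
    congr 1
    refine sum_congr rfl fun H _ => ?_
    ring
  have h4 : (∑ H : Finset (Sym2 V), (dens ρ H - 1) ^ 2) / M ≤
      3 * (Fintype.card ρ : ℝ) ^ 2 / n ^ 2 := by
    have h5 : ∑ H : Finset (Sym2 V), (dens ρ H - 1) ^ 2 =
        ∑ H : Finset (Sym2 V), dens ρ H ^ 2 - M := by
      have : ∀ H : Finset (Sym2 V), (dens ρ H - 1) ^ 2 = dens ρ H ^ 2 - 2 * dens ρ H + 1 := by
        intro H; ring
      simp only [this, sum_add_distrib, sum_sub_distrib, ← mul_sum, sum_dens, sum_const, card_univ,
        nsmul_eq_mul, mul_one]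
      rw [← hM]
      ring
    rw [h5, sum_dens_sq, ← hM, sub_div, div_self hM0.ne', mul_div_assoc, mul_div_cancel_left₀ _ hM0.ne']
    have := second_moment (V := V) (ρ := ρ) hR
    linarith
  set D := prob (fun x : Finset (Sym2 V) × (Option ρ → V) => Θ (x.1 ∪ Q.star x.2)) - prob Θ with hD
  have h6 : D ^ 2 ≤ 3 * (Fintype.card ρ : ℝ) ^ 2 / n ^ 2 := by
    have cs := Finset.sum_mul_sq_le_sq_mul_sq (univ : Finset (Finset (Sym2 V)))
      (fun H => dens ρ H - 1) (fun H => if Θ H then (1 : ℝ) else 0)
    have h7 : ∑ H : Finset (Sym2 V), (if Θ H then (1 : ℝ) else 0) ^ 2 ≤ M := by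
      calc ∑ H : Finset (Sym2 V), (if Θ H then (1 : ℝ) else 0) ^ 2 ≤
          ∑ H : Finset (Sym2 V), (1 : ℝ) := by
            apply sum_le_sum; intro H _; split_ifs <;> norm_num
        _ = M := by simp [hM]
    have h8 : (∑ H : Finset (Sym2 V), (dens ρ H - 1) * if Θ H then 1 else 0) ^ 2 ≤
        (∑ H : Finset (Sym2 V), (dens ρ H - 1) ^ 2) * M :=
      cs.trans (mul_le_mul_of_nonneg_left h7 (sum_nonneg fun H _ => sq_nonneg _))
    rw [h3, div_pow]
    calc (∑ H : Finset (Sym2 V), (dens ρ H - 1) * if Θ H then 1 else 0) ^ 2 / M ^ 2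
        ≤ (∑ H : Finset (Sym2 V), (dens ρ H - 1) ^ 2) * M / M ^ 2 := by gcongr
      _ = (∑ H : Finset (Sym2 V), (dens ρ H - 1) ^ 2) / M := by field_simp
      _ ≤ _ := h4
  have h9 : D ≤ 2 * (Fintype.card ρ : ℝ) / n := by
    refine abs_le_of_sq_le_sq' ?_ (by positivity) |>.2
    calc D ^ 2 ≤ 3 * (Fintype.card ρ : ℝ) ^ 2 / n ^ 2 := h6
      _ ≤ 4 * (Fintype.card ρ : ℝ) ^ 2 / n ^ 2 := by gcongr; norm_num
      _ = (2 * (Fintype.card ρ : ℝ) / n) ^ 2 := by ring
  linarith

end Pool.Agent.T9h48.QC
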