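import Pool.Agent.T9h48.QC.H1

set_option autoImplicit false

/-!
# Piece (H2): all the stars are nearly invisible in the uniformly random graph
-/

namespace Pool.Agent.T9h48.QC

open Finset
open Pool.Agent.PC34 (prob)
open Pool.Agent.T9h34
open Pool.Agent.T9h34.Q (StStar StTV Env Ix Rt Packet stage ixBelow)

open Classical in
theorem prob_eq {Ω : Type} [Fintype Ω] (A : Ω → Prop) :
    prob A = (∑ ω : Ω, if A ω then (1 : ℝ) else 0) / Fintype.card Ω := by
  unfold prob
  rw [card_filter, Nat.cast_sum]
  congr 1
  refine sum_congr rfl fun H _ => ?_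
  split_ifs <;> simp

/-- The probability on a product is the mean of the conditional probabilities. -/
theorem prob_prod {α β : Type} [Fintype α] [Fintype β] (A : α × β → Prop) :
    prob A = (∑ b : β, prob (fun a => A (a, b))) / Fintype.card β := by
  classical
  simp only [prob_eq]
  rw [← sum_div, Fintype.card_prod, Nat.cast_mul, div_div, Fintype.sum_prod_type_right]

theorem prob_prod3 {α β γ : Type} [Fintype α] [Fintype β] [Fintype γ] [Nonempty γ]
    (A : α → β → Prop) :
    prob (fun x : α × β × γ => A x.1 x.2.1) =
      (∑ b : β, prob (fun a => A a b)) / Fintype.card β := by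
  classical
  rw [prob_prod, Fintype.sum_prod_type, Fintype.card_prod, Nat.cast_mul]
  simp only [sum_const, card_univ, nsmul_eq_mul]
  rw [← mul_sum]
  have : (Fintype.card γ : ℝ) ≠ 0 := by exact_mod_cast Fintype.card_ne_zero
  rw [mul_comm (Fintype.card β : ℝ), mul_div_mul_left _ _ this]

/-- Resampling one coordinate. -/
theorem sum_update {ι P : Type} [Fintype ι] [DecidableEq ι] [Fintype P] (i : ι)
    (F : (ι → P) → ℝ) :
    (Fintype.card P : ℝ) * ∑ pk : ι → P, F pk =
      ∑ pk : ι → P, ∑ p : P, F (Function.update pk i p) := by
  let e : (ι → P) × P ≃ (ι → P) × P :=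
    { toFun := fun x => (Function.update x.1 i x.2, x.1 i)
      invFun := fun x => (Function.update x.1 i x.2, x.1 i)
      left_inv := by intro x; ext <;> simp
      right_inv := by intro x; ext <;> simp }
  rw [← Fintype.sum_prod_type' (f := fun pk p => F (Function.update pk i p))]
  rw [show (fun x : (ι → P) × P => F (Function.update x.1 i x.2)) =
    fun x => (fun y : (ι → P) × P => F y.1) (e x) from rfl]
  rw [Equiv.sum_comp e (fun y : (ι → P) × P => F y.1)]
  rw [Fintype.sum_prod_type]
  simp only [sum_const, card_univ, nsmul_eq_mul]
  rw [← mul_sum]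

/-- (H2) from (H1). -/
theorem stTV_of (H : StStar) : StTV := by
  intro V _ _ _ B d m hR Θ
  classical
  set δ : ℝ := 2 * (Fintype.card (Rt B d m) : ℝ) / Fintype.card V with hδ
  set P := Packet V B d m with hP
  have hPne : Nonempty P := ⟨fun _ => Classical.arbitrary V⟩
  have hcP : (0 : ℝ) < Fintype.card P := by exact_mod_cast Fintype.card_pos
  have hcI : (0 : ℝ) < Fintype.card (Ix B d m → P) := by exact_mod_cast Fintype.card_pos
  have key : ∀ s : Finset (Ix B d m),
      ∑ pk : Ix B d m → P, prob (fun G : Finset (Sym2 V) =>
        Θ (G ∪ s.biUnion (fun i => Q.star (pk i)))) ≤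
      Fintype.card (Ix B d m → P) * (prob Θ + s.card * δ) := by
    intro s
    induction s using Finset.induction_on with
    | empty =>
      simp only [biUnion_empty, union_empty, sum_const, card_univ, nsmul_eq_mul, card_empty,
        Nat.cast_zero, zero_mul, add_zero]
      exact le_rfl
    | insert i s hi ih =>
      have h1 := sum_update i (fun pk : Ix B d m → P => prob (fun G : Finset (Sym2 V) =>
        Θ (G ∪ (insert i s).biUnion (fun i => Q.star (pk i)))))
      have h2 : ∀ (pk : Ix B d m → P), ∑ p : P, prob (fun G : Finset (Sym2 V) =>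
          Θ (G ∪ (insert i s).biUnion (fun j => Q.star (Function.update pk i p j)))) ≤
          Fintype.card P * (prob (fun G : Finset (Sym2 V) =>
            Θ (G ∪ s.biUnion (fun j => Q.star (pk j)))) + δ) := by
        intro pk
        have h3 := H V (Rt B d m) hR (fun G => Θ (G ∪ s.biUnion (fun j => Q.star (pk j))))
        rw [prob_prod] at h3
        have h4 : ∀ p : P, (fun G : Finset (Sym2 V) =>
            Θ (G ∪ (insert i s).biUnion (fun j => Q.star (Function.update pk i p j)))) =
            fun G => Θ ((G ∪ Q.star p) ∪ s.biUnion (fun j => Q.star (pk j))) := by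
          intro p
          funext G
          congr 1
          rw [biUnion_insert, Function.update_self, ← union_assoc]
          congr 1
          refine biUnion_congr rfl fun j hj => ?_
          rw [Function.update_of_ne]
          rintro rfl
          exact hi hj
        simp only [h4]
        rw [div_le_iff₀ hcP] at h3
        rw [mul_comm]
        exact h3
      have h5 : (Fintype.card P : ℝ) * ∑ pk : Ix B d m → P, prob (fun G : Finset (Sym2 V) =>
          Θ (G ∪ (insert i s).biUnion (fun i => Q.star (pk i)))) ≤
          Fintype.card P * (Fintype.card (Ix B d m → P) *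
            (prob Θ + (insert i s).card * δ)) := by
        rw [h1]
        calc ∑ pk : Ix B d m → P, ∑ p : P, prob (fun G : Finset (Sym2 V) =>
              Θ (G ∪ (insert i s).biUnion (fun j => Q.star (Function.update pk i p j))))
            ≤ ∑ pk : Ix B d m → P, Fintype.card P * (prob (fun G : Finset (Sym2 V) =>
              Θ (G ∪ s.biUnion (fun j => Q.star (pk j)))) + δ) :=
                sum_le_sum fun pk _ => h2 pk
          _ = Fintype.card P * (∑ pk : Ix B d m → P, prob (fun G : Finset (Sym2 V) =>
              Θ (G ∪ s.biUnion (fun j => Q.star (pk j)))) +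
                Fintype.card (Ix B d m → P) * δ) := by
                rw [← mul_sum, sum_add_distrib, sum_const, card_univ, nsmul_eq_mul]
          _ ≤ Fintype.card P * (Fintype.card (Ix B d m → P) * (prob Θ + s.card * δ) +
                Fintype.card (Ix B d m → P) * δ) := by gcongr
          _ = _ := by
                rw [card_insert_of_notMem hi]
                push_cast
                ring
      exact le_of_mul_le_mul_left h5 hcP
  have h0 : ixBelow B d m B = univ := by
    ext i
    simp [ixBelow]
  have h1 := prob_prod3 (γ := V → Ix B d m → V) (fun (G : Finset (Sym2 V)) (pk : Ix B d m → P) =>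
    Θ (G ∪ (univ : Finset (Ix B d m)).biUnion (fun i => Q.star (pk i))))
  have h2 : prob (fun ω : Env V B d m => Θ (stage ω B)) =
      prob (fun x : Finset (Sym2 V) × (Ix B d m → P) × (V → Ix B d m → V) =>
        Θ (x.1 ∪ (univ : Finset (Ix B d m)).biUnion (fun i => Q.star (x.2.1 i)))) := by
    unfold stage
    rw [h0]
  rw [h2, h1, div_le_iff₀ hcI]
  have h3 := key univ
  rw [card_univ] at h3
  calc _ ≤ _ := h3
    _ = _ := by ring

/-- Piece (H2). -/
theorem stTV : StTV := stTV_of stStar

end Pool.Agent.T9h48.QC
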